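import Mathlib

set_option autoImplicit false

namespace Pool.Agent.Results.MP_919dc2_an.PeriodNOr2N

open Filter Topology Set Function

/-- `b` is a backward orbit branch of `x` under `f`: `b 0 = x` and `f (b (k+1)) = b k`. -/
def IsBackwardBranch {α : Type*} (f : α → α) (x : α) (b : ℕ → α) : Prop :=
  b 0 = x ∧ ∀ k, f (b (k + 1)) = b k

/-- The special alpha-limit set of `x`: the points `y` such that some backward orbit branch of `x`
has a subsequence converging to `y`. -/
def specialAlpha {α : Type*} [TopologicalSpace α] (f : α → α) (x : α) : Set α :=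
  {y | ∃ b : ℕ → α, IsBackwardBranch f x b ∧
    ∃ φ : ℕ → ℕ, StrictMono φ ∧ Tendsto (fun j => b (φ j)) atTop (𝓝 y)}

/-- The set `A` contains a periodic orbit of period `n`: there is a point `p` of least period `n`
all of whose iterates lie in `A`. -/
def ContainsOrbit {α : Type*} (f : α → α) (A : Set α) (n : ℕ) : Prop :=
  ∃ p : α, f^[n] p = p ∧ (∀ m, 1 ≤ m → m < n → f^[m] p ≠ p) ∧ ∀ m < n, f^[m] p ∈ A

section general

variable {α : Type*} [TopologicalSpace α]

theorem specialAlpha_map {f : α → α} (hf : Continuous f) {x y : α} (hy : y ∈ specialAlpha f x) :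
    f y ∈ specialAlpha f x := by
  obtain ⟨b, hb, φ, hφ, hlim⟩ := hy
  refine ⟨b, hb, fun j => φ (j + 1) - 1, ?_, ?_⟩
  · intro i j hij
    have h1 : φ (i + 1) < φ (j + 1) := hφ (by omega)
    have h2 : i + 1 ≤ φ (i + 1) := hφ.id_le (i + 1)
    show φ (i + 1) - 1 < φ (j + 1) - 1
    omega
  · have h1 : Tendsto (fun j => f (b (φ j))) atTop (𝓝 (f y)) := (hf.tendsto y).comp hlim
    have h2 := h1.comp (tendsto_add_atTop_nat 1)
    refine h2.congr ?_
    intro j
    have h3 : j + 1 ≤ φ (j + 1) := hφ.id_le (j + 1)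
    have h4 : φ (j + 1) = (φ (j + 1) - 1) + 1 := by omega
    show f (b (φ (j + 1))) = b (φ (j + 1) - 1)
    conv_lhs => rw [h4]
    exact hb.2 _

theorem specialAlpha_iterate {f : α → α} (hf : Continuous f) {x y : α} (hy : y ∈ specialAlpha f x)
    (k : ℕ) : f^[k] y ∈ specialAlpha f x := by
  induction k with
  | zero => exact hy
  | succ k ih =>
    rw [iterate_succ_apply']
    exact specialAlpha_map hf ih

theorem specialAlpha_of_preimage_one {f : α → α} {x z y : α} (hz : f z = x)
    (hy : y ∈ specialAlpha f z) : y ∈ specialAlpha f x := by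
  obtain ⟨b, hb, φ, hφ, hlim⟩ := hy
  refine ⟨fun k => Nat.casesOn k x b, ⟨rfl, ?_⟩, fun j => φ j + 1, ?_, ?_⟩
  · intro k
    cases k with
    | zero => show f (b 0) = x; rw [hb.1, hz]
    | succ k => exact hb.2 k
  · intro i j hij
    have := hφ hij
    show φ i + 1 < φ j + 1
    omega
  · exact hlim

theorem specialAlpha_of_preimage {f : α → α} {x y : α} (k : ℕ) : ∀ z : α, f^[k] z = x →
    y ∈ specialAlpha f z → y ∈ specialAlpha f x := by
  induction k with
  | zero => intro z hz hy; rw [iterate_zero_apply] at hz; rwa [← hz]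
  | succ k ih =>
    intro z hz hy
    rw [iterate_succ_apply] at hz
    exact ih (f z) hz (specialAlpha_of_preimage_one rfl hy)

/-- a sequence of preimages under a fixed iterate is a subsequence of a backward branch -/
theorem mem_specialAlpha_of_seq {f : α → α} {z w : α} {N : ℕ} (hN : 1 ≤ N) (t : ℕ → α)
    (h0 : t 0 = z) (ht : ∀ k, f^[N] (t (k + 1)) = t k) (hlim : Tendsto t atTop (𝓝 w)) :
    w ∈ specialAlpha f z := by
  have hj : ∀ j k, f^[N * j] (t (k + j)) = t k := by
    intro j
    induction j with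
    | zero => intro k; simp
    | succ j ih =>
      intro k
      rw [Nat.mul_succ, iterate_add_apply, ← add_assoc, ht, ih]
  have hle : ∀ m, m ≤ N * m := fun m => Nat.le_mul_of_pos_left m hN
  refine ⟨fun m => f^[N * m - m] (t m), ⟨by simpa using h0, ?_⟩, fun k => N * k, ?_, ?_⟩
  · intro k
    rw [← iterate_succ_apply' f]
    have h1 : (N * (k + 1) - (k + 1)).succ = (N * k - k) + N := by
      have h2 := hle k
      have h3 := hle (k + 1)
      have h4 : N * (k + 1) = N * k + N := Nat.mul_succ N k
      omega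
    rw [h1, iterate_add_apply, ht]
  · intro i j hij
    exact Nat.mul_lt_mul_of_pos_left hij hN
  · refine hlim.congr ?_
    intro k
    have h1 : N * (N * k) - N * k = N * (N * k - k) := by rw [Nat.mul_sub]
    have h2 : N * k = k + (N * k - k) := by have := hle k; omega
    show t k = f^[N * (N * k) - N * k] (t (N * k))
    rw [h1]
    conv_rhs => rw [show t (N * k) = t (k + (N * k - k)) by rw [← h2]]
    rw [hj]

end general

section order

set_option linter.unusedSectionVars false

variable {α : Type*} [ConditionallyCompleteLinearOrder α] [TopologicalSpace α] [OrderTopology α]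
  [DenselyOrdered α]

/-- the leftmost preimage in `[u, v]` -/
noncomputable def sel (f : α → α) (u v z : α) : α := sInf {y | y ∈ Icc u v ∧ f y = z}

theorem sel_spec {f : α → α} (hf : Continuous f) {u v z : α}
    (hne : ∃ y ∈ Icc u v, f y = z) : sel f u v z ∈ Icc u v ∧ f (sel f u v z) = z := by
  have hclosed : IsClosed {y | y ∈ Icc u v ∧ f y = z} :=
    isClosed_Icc.inter (isClosed_eq hf continuous_const)
  obtain ⟨y, hy, hy2⟩ := hne
  exact hclosed.csInf_mem ⟨y, hy, hy2⟩ ⟨u, fun t ht => ht.1.1⟩

theorem sel_le {f : α → α} {u v z y : α} (hy : y ∈ Icc u v) (hyz : f y = z) :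
    sel f u v z ≤ y := csInf_le ⟨u, fun t ht => ht.1.1⟩ ⟨hy, hyz⟩

/-- decreasing selection -/
theorem sel_anti {f : α → α} (hf : Continuous f) {u v A C : α} (huv : u ≤ v)
    (hu : f u = C) (hv : f v = A) :
    (∀ z ∈ Icc A C, sel f u v z ∈ Icc u v ∧ f (sel f u v z) = z) ∧
      AntitoneOn (sel f u v) (Icc A C) := by
  have hex : ∀ z ∈ Icc A C, ∃ y ∈ Icc u v, f y = z := by
    intro z hz
    have := intermediate_value_Icc' huv hf.continuousOn
    rw [hu, hv] at this
    exact this hz
  refine ⟨fun z hz => sel_spec hf (hex z hz), ?_⟩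
  intro z hz z' hz' hzz'
  obtain ⟨hs, hfs⟩ := sel_spec hf (hex z hz)
  have := intermediate_value_Icc' hs.1 (f := f) hf.continuousOn
  rw [hu, hfs] at this
  obtain ⟨y, hy, hy2⟩ := this ⟨hzz', hz'.2⟩
  exact (sel_le ⟨hy.1, hy.2.trans hs.2⟩ hy2).trans hy.2

/-- increasing selection -/
theorem sel_mono {f : α → α} (hf : Continuous f) {u v A C : α} (huv : u ≤ v)
    (hu : f u = A) (hv : f v = C) :
    (∀ z ∈ Icc A C, sel f u v z ∈ Icc u v ∧ f (sel f u v z) = z) ∧
      MonotoneOn (sel f u v) (Icc A C) := by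
  have hex : ∀ z ∈ Icc A C, ∃ y ∈ Icc u v, f y = z := by
    intro z hz
    have := intermediate_value_Icc huv hf.continuousOn
    rw [hu, hv] at this
    exact this hz
  refine ⟨fun z hz => sel_spec hf (hex z hz), ?_⟩
  intro z hz z' hz' hzz'
  obtain ⟨hs, hfs⟩ := sel_spec hf (hex z' hz')
  have := intermediate_value_Icc hs.1 (f := f) hf.continuousOn
  rw [hu, hfs] at this
  obtain ⟨y, hy, hy2⟩ := this ⟨hz.1, hzz'⟩
  exact (sel_le ⟨hy.1, hy.2.trans hs.2⟩ hy2).trans hy.2

/-- iterates of a monotone self-map of `[b, c]` converge -/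
theorem exists_limit {T : α → α} {b c : α} (hT : MapsTo T (Icc b c) (Icc b c))
    (hmono : MonotoneOn T (Icc b c)) {z : α} (hz : z ∈ Icc b c) :
    ∃ w, Tendsto (fun k => T^[k] z) atTop (𝓝 w) := by
  have hmem : ∀ k, T^[k] z ∈ Icc b c := by
    intro k
    induction k with
    | zero => exact hz
    | succ k ih => rw [iterate_succ_apply']; exact hT ih
  rcases le_total z (T z) with h | h
  · have hm : Monotone (fun k => T^[k] z) := by
      apply monotone_nat_of_le_succ
      intro k
      induction k with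
      | zero => simpa using h
      | succ k ih =>
        rw [iterate_succ_apply' T k z, iterate_succ_apply' T (k + 1) z]
        exact hmono (hmem k) (hmem (k + 1)) ih
    exact ⟨_, tendsto_atTop_ciSup hm ⟨c, by rintro _ ⟨k, rfl⟩; exact (hmem k).2⟩⟩
  · have hm : Antitone (fun k => T^[k] z) := by
      apply antitone_nat_of_succ_le
      intro k
      induction k with
      | zero => simpa using h
      | succ k ih =>
        rw [iterate_succ_apply' T k z, iterate_succ_apply' T (k + 1) z]
        exact hmono (hmem (k + 1)) (hmem k) ih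
    exact ⟨_, tendsto_atTop_ciInf hm ⟨b, by rintro _ ⟨k, rfl⟩; exact (hmem k).1⟩⟩

/-- the key lemma: a monotone or antitone section `S` of `f^[n]` on `[b, c]` yields a point `w` of
`[b, c]` with `f^[2n] w = w` in the special alpha-limit set of every point of `[b, c]`, and
following every closed itinerary followed by the points `S (S z)`. -/
theorem exists_point {f : α → α} (hf : Continuous f) {b c : α} {n : ℕ} (hn : 1 ≤ n) {S : α → α}
    (hS : MapsTo S (Icc b c) (Icc b c)) (hSf : ∀ z ∈ Icc b c, f^[n] (S z) = z)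
    (hm : MonotoneOn S (Icc b c) ∨ AntitoneOn S (Icc b c)) {z : α} (hz : z ∈ Icc b c) :
    ∃ w ∈ specialAlpha f z, f^[2 * n] w = w ∧
      ∀ (i : ℕ) (F : Set α), IsClosed F → (∀ y ∈ Icc b c, f^[i] (S (S y)) ∈ F) → f^[i] w ∈ F := by
  have hT : MapsTo (fun y => S (S y)) (Icc b c) (Icc b c) := fun y hy => hS (hS hy)
  have hTm : MonotoneOn (fun y => S (S y)) (Icc b c) := by
    intro y hy y' hy' h
    rcases hm with hm | hm
    · exact hm (hS hy) (hS hy') (hm hy hy' h)
    · exact hm (hS hy') (hS hy) (hm hy hy' h)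
  obtain ⟨w, hw⟩ := exists_limit hT hTm hz
  set t : ℕ → α := fun k => (fun y => S (S y))^[k] z with ht
  have hmem : ∀ k, t k ∈ Icc b c := by
    intro k
    induction k with
    | zero => exact hz
    | succ k ih => rw [ht]; simp only; rw [iterate_succ_apply']; exact hT ih
  have hstep : ∀ k, t (k + 1) = S (S (t k)) := by
    intro k
    rw [ht]; simp only; rw [iterate_succ_apply']
  have hf2 : ∀ k, f^[2 * n] (t (k + 1)) = t k := by
    intro k
    rw [hstep, two_mul, iterate_add_apply, hSf _ (hS (hmem k)), hSf _ (hmem k)]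
  refine ⟨w, mem_specialAlpha_of_seq (N := 2 * n) (by omega) t rfl hf2 hw, ?_, ?_⟩
  · have h1 : Tendsto (fun k => f^[2 * n] (t (k + 1))) atTop (𝓝 (f^[2 * n] w)) :=
      ((hf.iterate (2 * n)).tendsto w).comp (hw.comp (tendsto_add_atTop_nat 1))
    simp only [hf2] at h1
    exact tendsto_nhds_unique h1 hw
  · intro i F hF hyF
    have h1 : Tendsto (fun k => f^[i] (t (k + 1))) atTop (𝓝 (f^[i] w)) :=
      ((hf.iterate i).tendsto w).comp (hw.comp (tendsto_add_atTop_nat 1))
    refine hF.mem_of_tendsto h1 (Eventually.of_forall fun k => ?_)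
    rw [hstep]
    exact hyF _ (hmem k)

/-- from the divisibility information to the periodic orbit -/
theorem contains_of_point {f : α → α} (hf : Continuous f) {x w : α} {n : ℕ} (hn : 1 ≤ n)
    (hw : w ∈ specialAlpha f x) (h2 : f^[2 * n] w = w) (hd : n ∣ minimalPeriod f w) :
    ContainsOrbit f (specialAlpha f x) n ∨ ContainsOrbit f (specialAlpha f x) (2 * n) := by
  have hper : IsPeriodicPt f (2 * n) w := h2
  have hpos : 0 < minimalPeriod f w := hper.minimalPeriod_pos (by omega)
  have hdvd : minimalPeriod f w ∣ 2 * n := hper.minimalPeriod_dvd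
  have key : ContainsOrbit f (specialAlpha f x) (minimalPeriod f w) :=
    ⟨w, isPeriodicPt_minimalPeriod f w,
      fun m hm1 hm2 h => not_isPeriodicPt_of_pos_of_lt_minimalPeriod (by omega) hm2 h,
      fun m _ => specialAlpha_iterate hf hw m⟩
  obtain ⟨j, hj⟩ := hd
  have hjn : j = 1 ∨ j = 2 := by
    rw [hj] at hdvd hpos
    have h3 : j ∣ 2 := by
      rw [mul_comm 2 n] at hdvd
      exact Nat.dvd_of_mul_dvd_mul_left hn hdvd
    have h4 : j ≤ 2 := Nat.le_of_dvd (by norm_num) h3
    have h5 : 0 < j := Nat.pos_of_mul_pos_left hpos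
    omega
  rcases hjn with rfl | rfl
  · left; rw [mul_one] at hj; rwa [← hj]
  · right; rw [mul_comm] at hj; rwa [← hj]

/-- the main argument, for a 3-cycle `a < b < c` with `a -> b -> c -> a` -/
theorem core {f : α → α} (hf : Continuous f) {a b c : α} (hab : a < b) (hbc : b < c)
    (h1 : f a = b) (h2 : f b = c) (h3 : f c = a) {x z : α} {k : ℕ} (hz : z ∈ Icc a c)
    (hzx : f^[k] z = x) (n : ℕ) (hn : 1 ≤ n) :
    ContainsOrbit f (specialAlpha f x) n ∨ ContainsOrbit f (specialAlpha f x) (2 * n) := by
  -- the selections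
  obtain ⟨hs1, hs1a⟩ := sel_anti hf hbc.le h2 h3
  obtain ⟨hs2, hs2m⟩ := sel_mono hf hab.le h1 h2
  set s1 := sel f b c with hs1def
  set s2 := sel f a b with hs2def
  have hKsub : Icc b c ⊆ Icc a c := Icc_subset_Icc hab.le le_rfl
  have hJsub : Icc a b ⊆ Icc a c := Icc_subset_Icc le_rfl hbc.le
  -- move the point into `[b, c]`
  have hz' : s1 z ∈ Icc b c := (hs1 z hz).1
  have hzx' : f^[k + 1] (s1 z) = x := by
    rw [iterate_succ_apply, (hs1 z hz).2, hzx]
  have hpush : ∀ w, w ∈ specialAlpha f (s1 z) → w ∈ specialAlpha f x := fun w hw =>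
    specialAlpha_of_preimage (k + 1) (s1 z) hzx' hw
  -- iterates of the first selection
  have hit : ∀ j x, x ∈ Icc a c → s1^[j] x ∈ Icc a c := by
    intro j
    induction j with
    | zero => intro x hx; exact hx
    | succ j ih => intro x hx; rw [iterate_succ_apply']; exact hKsub (hs1 _ (ih x hx)).1
  have hit1 : ∀ j x, x ∈ Icc a c → s1^[j + 1] x ∈ Icc b c := by
    intro j x hx
    rw [iterate_succ_apply']
    exact (hs1 _ (hit j x hx)).1
  have hfi : ∀ i j x, x ∈ Icc a c → f^[i] (s1^[i + j] x) = s1^[j] x := by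
    intro i
    induction i with
    | zero => intro j x hx; simp
    | succ i ih =>
      intro j x hx
      rw [show i + 1 + j = (i + j) + 1 by ring, iterate_succ_apply' s1, iterate_succ_apply,
        (hs1 _ (hit _ x hx)).2, ih j x hx]
  have hmono : ∀ j, (MonotoneOn (s1^[j]) (Icc a c) ∨ AntitoneOn (s1^[j]) (Icc a c)) := by
    intro j
    induction j with
    | zero => left; intro y _ y' _ h; exact h
    | succ j ih =>
      rcases ih with ih | ih
      · right
        intro y hy y' hy' h
        rw [iterate_succ_apply', iterate_succ_apply']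
        exact hs1a (hit j y hy) (hit j y' hy') (ih hy hy' h)
      · left
        intro y hy y' hy' h
        rw [iterate_succ_apply', iterate_succ_apply']
        exact hs1a (hit j y' hy') (hit j y hy) (ih hy hy' h)
  by_cases hn1 : n = 1
  · -- the loop `[b, c] -> [b, c]`
    subst hn1
    obtain ⟨w, hw, hw2, -⟩ := exists_point hf (n := 1) le_rfl (S := s1) (z := s1 z)
      (fun y hy => (hs1 y (hKsub hy)).1) (fun y hy => (hs1 y (hKsub hy)).2)
      (Or.inr (hs1a.mono hKsub)) hz'
    exact contains_of_point hf le_rfl (hpush w hw) hw2 (one_dvd _)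
  · -- the loop `[b, c]^(n-1) -> [a, b] -> [b, c]`
    have hn2 : 2 ≤ n := by omega
    set S : α → α := fun y => s1^[n - 1] (s2 y) with hS
    have hSmem : ∀ y ∈ Icc b c, S y ∈ Icc b c := by
      intro y hy
      have := hit1 (n - 2) (s2 y) (hJsub (hs2 y hy).1)
      rwa [show n - 2 + 1 = n - 1 by omega] at this
    have hSi : ∀ i, i + 2 ≤ n → ∀ y ∈ Icc b c, f^[i] (S y) ∈ Icc b c := by
      intro i hi y hy
      have h4 := hfi i (n - 2 - i + 1) (s2 y) (hJsub (hs2 y hy).1)
      rw [show i + (n - 2 - i + 1) = n - 1 by omega] at h4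
      show f^[i] (s1^[n - 1] (s2 y)) ∈ _
      rw [h4]
      exact hit1 _ _ (hJsub (hs2 y hy).1)
    have hSl : ∀ y ∈ Icc b c, f^[n - 1] (S y) = s2 y := by
      intro y hy
      have h4 := hfi (n - 1) 0 (s2 y) (hJsub (hs2 y hy).1)
      simpa using h4
    have hSn : ∀ y ∈ Icc b c, f^[n] (S y) = y := by
      intro y hy
      have h4 : n = (n - 1) + 1 := by omega
      rw [h4, iterate_succ_apply', hSl y hy, (hs2 y hy).2]
    have hSm : MonotoneOn S (Icc b c) ∨ AntitoneOn S (Icc b c) := by
      rcases hmono (n - 1) with h | h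
      · left
        intro y hy y' hy' hyy'
        exact h (hJsub (hs2 y hy).1) (hJsub (hs2 y' hy').1) (hs2m hy hy' hyy')
      · right
        intro y hy y' hy' hyy'
        exact h (hJsub (hs2 y hy).1) (hJsub (hs2 y' hy').1) (hs2m hy hy' hyy')
    obtain ⟨w, hw, hw2, hwF⟩ := exists_point hf hn (S := S) (z := s1 z) hSmem hSn hSm hz'
    refine contains_of_point hf hn (hpush w hw) hw2 ?_
    -- the itinerary of `w`
    have hK : ∀ i, i < 2 * n → i % n ≠ n - 1 → f^[i] w ∈ Icc b c := by
      intro i hi him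
      apply hwF i (Icc b c) isClosed_Icc
      intro y hy
      by_cases hin : i < n
      · rw [Nat.mod_eq_of_lt hin] at him
        exact hSi i (by omega) _ (hSmem y hy)
      · have h5 : i = (i - n) + n := by omega
        have h6 : i - n < n := by omega
        rw [h5, Nat.add_mod_right, Nat.mod_eq_of_lt h6] at him
        rw [h5, iterate_add_apply, hSn _ (hSmem y hy)]
        exact hSi (i - n) (by omega) y hy
    have hJ : f^[n - 1] w ∈ Icc a b := by
      apply hwF (n - 1) (Icc a b) isClosed_Icc
      intro y hy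
      rw [hSl _ (hSmem y hy)]
      exact (hs2 _ (hSmem y hy)).1
    have hw0 : w ∈ Icc b c := by
      have := hK 0 (by omega) (by rw [Nat.zero_mod]; omega)
      simpa using this
    have hper : IsPeriodicPt f (2 * n) w := hw2
    have hKall : ∀ i, i % n ≠ n - 1 → f^[i] w ∈ Icc b c := by
      intro i hi
      rw [← hper.iterate_mod_apply i]
      apply hK _ (Nat.mod_lt _ (by omega))
      rwa [Nat.mod_mul_left_mod]
    -- the point in `[a, b]` is not `b`
    have hvb : f^[n - 1] w ≠ b := by
      intro hvb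
      have h4 : f^[n] w = c := by
        rw [show n = (n - 1) + 1 by omega, iterate_succ_apply', hvb, h2]
      have h5 : f^[n + 1] w = a := by rw [iterate_succ_apply', h4, h3]
      have h6 : (n + 1) % n = n - 1 := by
        by_contra hne
        have := hKall (n + 1) hne
        rw [h5] at this
        exact absurd this.1 (not_le.2 hab)
      have h7 : n = 2 := by
        rw [Nat.add_mod_left, Nat.mod_eq_of_lt (by omega)] at h6
        omega
      subst h7
      have h8 : f^[4] w = b := by
        rw [show (4 : ℕ) = (2 + 1) + 1 by norm_num, iterate_succ_apply', h5, h1]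
      have h9 : w = b := by rw [← h8]; exact hw2.symm
      have h10 : f w = b := hvb
      rw [h9, h2] at h10
      exact hbc.ne' h10
    have hvK : f^[n - 1] w ∉ Icc b c := fun h => hvb (le_antisymm hJ.2 h.1)
    have h11 : f^[n - 1 + minimalPeriod f w] w = f^[n - 1] w := by
      rw [iterate_add_apply, iterate_minimalPeriod]
    have h12 : (n - 1 + minimalPeriod f w) % n = n - 1 := by
      by_contra hne
      have := hKall _ hne
      rw [h11] at this
      exact hvK this
    have h13 : (n - 1 + minimalPeriod f w) ≡ n - 1 + 0 [MOD n] := by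
      show (n - 1 + minimalPeriod f w) % n = (n - 1 + 0) % n
      rw [h12, add_zero, Nat.mod_eq_of_lt (by omega)]
    exact (Nat.modEq_zero_iff_dvd).1 (Nat.ModEq.add_left_cancel' _ h13)

theorem iterate_branch {f : α → α} {x : α} {β : ℕ → α} (h : IsBackwardBranch f x β) (k : ℕ) :
    f^[k] (β k) = x := by
  induction k with
  | zero => exact h.1
  | succ k ih => rw [iterate_succ_apply, h.2, ih]

/-- the middle point of the 3-cycle is interior, so a point near it is a preimage of `x` -/
theorem core2 {f : α → α} (hf : Continuous f) {a b c : α} (hab : a < b) (hbc : b < c)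
    (h1 : f a = b) (h2 : f b = c) (h3 : f c = a) {x : α} (hb : b ∈ specialAlpha f x)
    (n : ℕ) (hn : 1 ≤ n) :
    ContainsOrbit f (specialAlpha f x) n ∨ ContainsOrbit f (specialAlpha f x) (2 * n) := by
  obtain ⟨β, hβ, φ, _, hlim⟩ := hb
  have hev : ∀ᶠ j in atTop, β (φ j) ∈ Ioo a c := hlim.eventually (Ioo_mem_nhds hab hbc)
  obtain ⟨j, hj⟩ := hev.exists
  exact core hf hab hbc h1 h2 h3 (Ioo_subset_Icc_self hj) (iterate_branch hβ (φ j)) n hn

end order

section both

variable {α : Type*} [ConditionallyCompleteLinearOrder α] [TopologicalSpace α] [OrderTopology α]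
  [DenselyOrdered α]

/-- both orientations of a 3-cycle with least point `p` -/
theorem core3 {f : α → α} (hf : Continuous f) {p q r : α} (hpq : p < q) (hpr : p < r)
    (hqr : q ≠ r) (h1 : f p = q) (h2 : f q = r) (h3 : f r = p) {x : α}
    (hq : q ∈ specialAlpha f x) (hr : r ∈ specialAlpha f x) (n : ℕ) (hn : 1 ≤ n) :
    ContainsOrbit f (specialAlpha f x) n ∨ ContainsOrbit f (specialAlpha f x) (2 * n) := by
  rcases lt_or_gt_of_ne hqr with h | h
  · exact core2 hf hpq h h1 h2 h3 hq n hn
  · have hf' : Continuous (X := αᵒᵈ) (Y := αᵒᵈ) f := hf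
    have := core2 (α := αᵒᵈ) (f := f) hf' (a := OrderDual.toDual q) (b := OrderDual.toDual r)
      (c := OrderDual.toDual p) (OrderDual.toDual_lt_toDual.2 h) (OrderDual.toDual_lt_toDual.2 hpr)
      h2 h3 h1 (x := x) hr n hn
    exact this

theorem general {f : α → α} (hf : Continuous f) {x : α}
    (h : ContainsOrbit f (specialAlpha f x) 3) (n : ℕ) (hn : 1 ≤ n) :
    ContainsOrbit f (specialAlpha f x) n ∨ ContainsOrbit f (specialAlpha f x) (2 * n) := by
  obtain ⟨p, hp, hp2, hp3⟩ := h
  have e1 : f p ≠ p := hp2 1 le_rfl (by norm_num)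
  have e2 : f (f p) ≠ p := hp2 2 (by norm_num) (by norm_num)
  have e3 : f (f (f p)) = p := hp
  have e4 : f (f p) ≠ f p := by
    intro h
    apply e1
    calc f p = f (f (f p)) := by rw [h, h]
      _ = p := e3
  have m0 : p ∈ specialAlpha f x := hp3 0 (by norm_num)
  have m1 : f p ∈ specialAlpha f x := hp3 1 (by norm_num)
  have m2 : f (f p) ∈ specialAlpha f x := hp3 2 (by norm_num)
  by_cases c1 : p < f p ∧ p < f (f p)
  · exact core3 hf c1.1 c1.2 e4.symm rfl rfl e3 m1 m2 n hn
  by_cases c2 : f p < f (f p) ∧ f p < p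
  · exact core3 hf c2.1 c2.2 e2 rfl e3 rfl m2 m0 n hn
  · have c3 : f (f p) < p ∧ f (f p) < f p := by
      constructor
      · by_contra hlt
        have hlt' : p < f (f p) := lt_of_le_of_ne (not_lt.1 hlt) e2.symm
        rcases lt_or_gt_of_ne e1 with h | h
        · exact c2 ⟨h.trans hlt', h⟩
        · exact c1 ⟨h, hlt'⟩
      · by_contra hlt
        have hlt' : f p < f (f p) := lt_of_le_of_ne (not_lt.1 hlt) e4.symm
        rcases lt_or_gt_of_ne e1 with h | h
        · exact c2 ⟨hlt', h⟩
        · exact c1 ⟨h, h.trans hlt'⟩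
    exact core3 hf c3.1 c3.2 e1.symm e3 rfl rfl m0 m1 n hn

end both

/-- **Answer to Q1 (affirmative).** For every continuous self-map `f` of `[0,1]` and every point
`x`: if the special alpha-limit set of `x` contains a periodic orbit of period `3`, then for each
`n ≥ 1` it contains a periodic orbit of period `n` or one of period `2n`. -/
theorem result (f : Set.Icc (0 : ℝ) 1 → Set.Icc (0 : ℝ) 1) (hf : Continuous f)
    (x : Set.Icc (0 : ℝ) 1) (h : ContainsOrbit f (specialAlpha f x) 3) (n : ℕ) (hn : 1 ≤ n) :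
    ContainsOrbit f (specialAlpha f x) n ∨ ContainsOrbit f (specialAlpha f x) (2 * n) :=
  general hf h n hn

end Pool.Agent.Results.MP_919dc2_an.PeriodNOr2N
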